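import Mathlib
import Pool.Agent.Lib_helper16.Meteor.Defs

/-! Poisson random sets: counting measures and elementary facts. -/

namespace Pool.Agent.Meteor

open MeasureTheory Filter ProbabilityTheory
open scoped ENNReal NNReal Topology

variable {Ω X : Type*} [MeasurableSpace Ω] [MeasurableSpace X]

/-- The counting measure of a set `F` (for finite or infinite, measurable or not `F`):
`cnt F A = (F ∩ A).encard` for measurable `A`. -/
noncomputable def cnt (F : Set X) : Measure X := Measure.count.restrict F

theorem count_apply_encard [MeasurableSingletonClass X] (F : Set X) :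
    Measure.count F = (F.encard : ℝ≥0∞) := by
  by_cases h : F.Finite
  · rw [Measure.count_apply_finite F h, h.encard_eq_coe_toFinset_card]
    simp
  · rw [Measure.count_apply_infinite h, Set.Infinite.encard_eq h]
    simp

theorem cnt_apply [MeasurableSingletonClass X] (F : Set X) {A : Set X} (hA : MeasurableSet A) :
    cnt F A = ((F ∩ A).encard : ℝ≥0∞) := by
  rw [cnt, Measure.restrict_apply hA, Set.inter_comm, count_apply_encard]

/-- Locally finite measures with respect to the exhaustion `K`. -/
def LF (K : ℕ → Set X) : Set (Measure X) := {ν | ∀ m, ν (K m) < ∞}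

theorem measurableSet_LF {K : ℕ → Set X} (hK : ∀ m, MeasurableSet (K m)) :
    MeasurableSet (LF K) := by
  have : LF K = ⋂ m, (fun ν : Measure X => ν (K m)) ⁻¹' (Set.Iio ∞) := by
    ext ν; simp [LF]
  rw [this]
  exact MeasurableSet.iInter fun m => (Measure.measurable_coe (hK m)) measurableSet_Iio

open Classical in
/-- The kernel `ν ↦ ν` cut down to locally finite measures. -/
noncomputable def goodK (K : ℕ → Set X) (hK : ∀ m, MeasurableSet (K m)) : Kernel (Measure X) X where
  toFun := fun ν => if ν ∈ LF K then ν else 0
  measurable' := Measurable.ite (measurableSet_LF hK) measurable_id measurable_const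

variable {K : ℕ → Set X}

theorem goodK_apply (hK : ∀ m, MeasurableSet (K m)) {ν : Measure X} (h : ν ∈ LF K) :
    goodK K hK ν = ν := by
  classical
  change (if ν ∈ LF K then ν else 0) = ν
  rw [if_pos h]

theorem goodK_apply' (hK : ∀ m, MeasurableSet (K m)) {ν : Measure X} (h : ν ∉ LF K) :
    goodK K hK ν = 0 := by
  classical
  change (if ν ∈ LF K then ν else 0) = 0
  rw [if_neg h]

theorem goodK_lt_top (hK : ∀ m, MeasurableSet (K m)) (ν : Measure X) (m : ℕ) :
    goodK K hK ν (K m) < ∞ := by
  by_cases h : ν ∈ LF K
  · rw [goodK_apply hK h]; exact h m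
  · rw [goodK_apply' hK h]; simp

theorem goodK_sfinite (hK : ∀ m, MeasurableSet (K m)) (hcov : ⋃ m, K m = Set.univ) :
    IsSFiniteKernel (goodK K hK) := by
  classical
  have hD : ∀ m, MeasurableSet (disjointed K m) := fun m => MeasurableSet.disjointed hK m
  let S : ℕ → ℕ → Set (Measure X) := fun m n =>
    {ν | (n : ℝ≥0∞) ≤ ν (disjointed K m) ∧ ν (disjointed K m) < (n : ℝ≥0∞) + 1}
  have hS : ∀ m n, MeasurableSet (S m n) := by
    intro m n
    have : S m n = (fun ν : Measure X => ν (disjointed K m)) ⁻¹'
        (Set.Ico (n : ℝ≥0∞) ((n : ℝ≥0∞) + 1)) := by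
      ext ν; simp [S]
    rw [this]
    exact (Measure.measurable_coe (hD m)) measurableSet_Ico
  have hfin : ∀ m n, IsFiniteKernel
      (Kernel.piecewise (hS m n) ((goodK K hK).restrict (hD m)) 0) := by
    intro m n
    refine ⟨⟨(n : ℝ≥0∞) + 1, by simp, fun ν => ?_⟩⟩
    rw [Kernel.piecewise_apply]
    split_ifs with h
    · rw [Kernel.restrict_apply, Measure.restrict_apply MeasurableSet.univ, Set.univ_inter]
      by_cases h' : ν ∈ LF K
      · rw [goodK_apply hK h']; exact h.2.le
      · rw [goodK_apply' hK h']; simp
    · simp
  have heq : goodK K hK = Kernel.sum (fun m => Kernel.sum (fun n =>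
      Kernel.piecewise (hS m n) ((goodK K hK).restrict (hD m)) 0)) := by
    ext ν A hA
    rw [Kernel.sum_apply' _ _ hA]
    have hin : ∀ m, (Kernel.sum (fun n =>
        Kernel.piecewise (hS m n) ((goodK K hK).restrict (hD m)) 0)) ν A
        = goodK K hK ν (A ∩ disjointed K m) := by
      intro m
      rw [Kernel.sum_apply' _ _ hA]
      by_cases h' : ν ∈ LF K
      · have hlt : ν (disjointed K m) < ∞ :=
          lt_of_le_of_lt (measure_mono (disjointed_subset K m)) (h' m)
        obtain ⟨r, hr⟩ : ∃ r : ℝ≥0, ν (disjointed K m) = r := ⟨_, (ENNReal.coe_toNNReal hlt.ne).symm⟩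
        have hfl : ν ∈ S m ⌊r⌋₊ := by
          constructor
          · rw [hr]
            exact_mod_cast Nat.floor_le (zero_le)
          · rw [hr]
            exact_mod_cast Nat.lt_floor_add_one r
        rw [tsum_eq_single ⌊r⌋₊]
        · rw [Kernel.piecewise_apply, if_pos hfl, Kernel.restrict_apply,
            Measure.restrict_apply hA]
        · intro n hn
          rw [Kernel.piecewise_apply, if_neg]
          · simp
          · intro h2
            apply hn
            obtain ⟨h3, h4⟩ := h2
            rw [hr] at h3 h4
            have h3' : (n : ℝ≥0) ≤ r := by exact_mod_cast h3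
            have h4' : r < (n : ℝ≥0) + 1 := by exact_mod_cast h4
            exact ((Nat.floor_eq_iff (zero_le)).2 ⟨h3', h4'⟩).symm
      · rw [goodK_apply' hK h']
        simp only [Measure.coe_zero, Pi.zero_apply]
        rw [ENNReal.tsum_eq_zero]
        intro n
        rw [Kernel.piecewise_apply]
        split_ifs
        · rw [Kernel.restrict_apply, goodK_apply' hK h']; simp
        · simp
    simp_rw [hin]
    rw [← measure_iUnion]
    · rw [← Set.inter_iUnion, iUnion_disjointed, hcov, Set.inter_univ]
    · intro i j hij
      exact ((disjoint_disjointed K) hij).mono Set.inter_subset_right Set.inter_subset_right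
    · intro i
      exact hA.inter (hD i)
  rw [heq]
  have : ∀ m, IsSFiniteKernel (Kernel.sum (fun n =>
      Kernel.piecewise (hS m n) ((goodK K hK).restrict (hD m)) 0)) := by
    intro m
    have : ∀ n, IsSFiniteKernel
      (Kernel.piecewise (hS m n) ((goodK K hK).restrict (hD m)) 0) := by
      intro n
      have := hfin m n
      infer_instance
    infer_instance
  infer_instance

section Poisson

variable {P : Measure Ω} {ξ : Ω → Set X} {μ : Measure X}

theorem measurable_encard_of (H : IsPoissonSet P ξ μ) {A : Set X} (hA : MeasurableSet A) :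
    Measurable (fun ω => ((ξ ω ∩ A).encard : ℝ≥0∞)) := by
  have h1 : Measurable (fun ω => (ξ ω ∩ A).encard) := by
    refine measurable_to_countable' fun k => ?_
    induction k using ENat.recTopCoe with
    | top =>
      have : (fun ω => (ξ ω ∩ A).encard) ⁻¹' {⊤} = (⋃ k : ℕ, {ω | (ξ ω ∩ A).encard = k})ᶜ := by
        ext ω
        simp only [Set.mem_preimage, Set.mem_singleton_iff, Set.mem_compl_iff, Set.mem_iUnion,
          Set.mem_ofPred_eq, not_exists]
        constructor
        · intro h k; rw [h]; exact ENat.top_ne_natCast k
        · intro h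
          by_contra h2
          obtain ⟨n, hn⟩ := ENat.ne_top_iff_exists.1 h2
          exact h n hn.symm
      rw [this]
      exact (MeasurableSet.iUnion fun k => H.meas A hA k).compl
    | coe k => exact H.meas A hA k
  exact (measurable_from_top (f := fun k : ℕ∞ => (k : ℝ≥0∞))).comp h1

variable [MeasurableSingletonClass X]

theorem measurable_cnt (H : IsPoissonSet P ξ μ) : Measurable (fun ω => cnt (ξ ω)) := by
  refine Measure.measurable_of_measurable_coe _ fun A hA => ?_
  simp_rw [cnt_apply _ hA]
  exact measurable_encard_of H hA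

end Poisson

end Pool.Agent.Meteor
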