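import Mathlib
import Pool.Agent.Lib_helper89.Poisson.Basic

/-! Poisson random sets: joint laws of counts. -/

namespace Pool.Agent.Meteor

open MeasureTheory Filter ProbabilityTheory
open scoped ENNReal NNReal Topology

variable {Ω X : Type*} [MeasurableSpace Ω] [MeasurableSpace X]

section Poisson

variable {P : Measure Ω} [IsProbabilityMeasure P] {ξ : Ω → Set X} {μ : Measure X}

/-- Product formula for a finite family indexed by an arbitrary finite type. -/
theorem IsPoissonSet.prob_fintype (H : IsPoissonSet P ξ μ) {ι : Type*} [Fintype ι]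
    (A : ι → Set X) (hA : ∀ i, MeasurableSet (A i)) (hd : Pairwise (fun i j => Disjoint (A i) (A j)))
    (hfin : ∀ i, μ (A i) ≠ ∞) (k : ι → ℕ) :
    P {ω | ∀ i, (ξ ω ∩ A i).encard = k i} = ∏ i, poissonMeasure (μ (A i)).toNNReal {k i} := by
  have h := H.prob (Fintype.card ι) (fun j => A ((Fintype.equivFin ι).symm j))
    (fun j => hA _) (fun i j hij => hd (by simpa using hij)) (fun j => hfin _)
    (fun j => k ((Fintype.equivFin ι).symm j))
  have h1 : {ω | ∀ i, (ξ ω ∩ A i).encard = k i} =
      {ω | ∀ i, (ξ ω ∩ A ((Fintype.equivFin ι).symm i)).encard =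
        k ((Fintype.equivFin ι).symm i)} := by
    ext ω
    constructor
    · intro h i; exact h _
    · intro h i
      have := h (Fintype.equivFin ι i)
      simpa using this
  rw [h1, h, Equiv.prod_comp (Fintype.equivFin ι).symm (fun i => ENNReal.ofReal
    (Real.exp (-(μ (A i)).toReal) * (μ (A i)).toReal ^ (k i) / (Nat.factorial (k i))))]
  refine Finset.prod_congr rfl fun i _ => ?_
  rw [poissonMeasure_singleton]
  rfl

theorem IsPoissonSet.encard_ne_top (H : IsPoissonSet P ξ μ) {A : Set X} (hA : MeasurableSet A)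
    (hfin : μ A ≠ ∞) : ∀ᵐ ω ∂P, (ξ ω ∩ A).encard ≠ ⊤ := by
  have h1 : P (⋃ k : ℕ, {ω | (ξ ω ∩ A).encard = k}) = 1 := by
    rw [measure_iUnion _ (fun k => H.meas A hA k)]
    · have : ∀ k : ℕ, P {ω | (ξ ω ∩ A).encard = k} = poissonMeasure (μ A).toNNReal {k} := by
        intro k
        have := H.prob_fintype (ι := Unit) (fun _ => A) (fun _ => hA)
          (fun i j hij => (hij rfl).elim) (fun _ => hfin) (fun _ => k)
        simpa using this
      simp_rw [this]
      rw [← measure_iUnion]
      · rw [Set.iUnion_of_singleton, measure_univ]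
      · intro i j hij
        simpa using hij
      · intro i; exact MeasurableSet.singleton i
    · intro i j hij
      rw [Function.onFun, Set.disjoint_left]
      intro ω h1 h2
      apply hij
      have : ((i : ℕ∞)) = (j : ℕ∞) := by rw [← h1, ← h2]
      exact_mod_cast this
  have h2 := (prob_compl_eq_zero_iff (MeasurableSet.iUnion fun k => H.meas A hA k)).2 h1
  rw [ae_iff]
  refine measure_mono_null ?_ h2
  intro ω hω
  simp only [not_not, Set.mem_ofPred_eq] at hω
  simp only [Set.mem_compl_iff, Set.mem_iUnion, Set.mem_ofPred_eq, not_exists]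
  intro k hk
  rw [hω] at hk
  exact ENat.top_ne_natCast k hk

/-- The natural-number valued count. -/
noncomputable def Nc (ξ : Ω → Set X) (A : Set X) (ω : Ω) : ℕ := (ξ ω ∩ A).encard.toNat

theorem IsPoissonSet.measurable_Nc (H : IsPoissonSet P ξ μ) {A : Set X} (hA : MeasurableSet A) :
    Measurable (Nc ξ A) := by
  have h1 := measurable_encard_of H hA
  have : Nc ξ A = (fun x : ℝ≥0∞ => ⌊x.toReal⌋₊) ∘ (fun ω => ((ξ ω ∩ A).encard : ℝ≥0∞)) := by
    funext ω
    simp only [Function.comp, Nc]
    induction (ξ ω ∩ A).encard using ENat.recTopCoe with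
    | top => simp
    | coe k => simp
  rw [this]
  exact (Nat.measurable_floor.comp ENNReal.measurable_toReal).comp h1

theorem IsPoissonSet.Nc_ae (H : IsPoissonSet P ξ μ) {A : Set X} (hA : MeasurableSet A)
    (hfin : μ A ≠ ∞) : ∀ᵐ ω ∂P, ((Nc ξ A ω : ℕ) : ℕ∞) = (ξ ω ∩ A).encard := by
  filter_upwards [H.encard_ne_top hA hfin] with ω hω
  exact ENat.natCast_toNat hω

variable [MeasurableSingletonClass X]

theorem IsPoissonSet.cnt_ae (H : IsPoissonSet P ξ μ) {A : Set X} (hA : MeasurableSet A)
    (hfin : μ A ≠ ∞) : ∀ᵐ ω ∂P, cnt (ξ ω) A = (Nc ξ A ω : ℝ≥0∞) := by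
  filter_upwards [H.Nc_ae hA hfin] with ω hω
  rw [cnt_apply _ hA, ← hω]
  simp

omit [MeasurableSingletonClass X] in
/-- The joint law of the counts in disjoint sets. -/
theorem IsPoissonSet.map_Nc (H : IsPoissonSet P ξ μ) {ι : Type*} [Fintype ι]
    (A : ι → Set X) (hA : ∀ i, MeasurableSet (A i)) (hd : Pairwise (fun i j => Disjoint (A i) (A j)))
    (hfin : ∀ i, μ (A i) ≠ ∞) :
    P.map (fun ω i => Nc ξ (A i) ω) = Measure.pi (fun i => poissonMeasure (μ (A i)).toNNReal) := by
  refine Measure.ext_of_singleton fun k => ?_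
  rw [Measure.map_apply (measurable_pi_iff.2 fun i => H.measurable_Nc (hA i))
    (MeasurableSet.singleton k), Measure.pi_singleton, ← H.prob_fintype A hA hd hfin k]
  refine measure_congr ?_
  have : ∀ᵐ ω ∂P, ∀ i, ((Nc ξ (A i) ω : ℕ) : ℕ∞) = (ξ ω ∩ A i).encard :=
    ae_all_iff.2 fun i => H.Nc_ae (hA i) (hfin i)
  filter_upwards [this] with ω hω
  apply propext
  change (fun i => Nc ξ (A i) ω) = k ↔ ∀ i, (ξ ω ∩ A i).encard = k i
  rw [funext_iff]
  refine forall_congr' fun i => ?_
  rw [← hω i]
  norm_cast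

omit [MeasurableSingletonClass X] in
theorem IsPoissonSet.map_Nc_single (H : IsPoissonSet P ξ μ)
    {A : Set X} (hA : MeasurableSet A) (hfin : μ A ≠ ∞) :
    P.map (Nc ξ A) = poissonMeasure (μ A).toNNReal := by
  refine Measure.ext_of_singleton fun k => ?_
  have h := H.map_Nc (ι := Unit) (fun _ => A) (fun _ => hA)
          (fun i j hij => (hij rfl).elim) (fun _ => hfin)
  have h2 := congrArg (fun ν => ν {fun _ => k}) h
  simp only [Measure.pi_singleton] at h2
  rw [Measure.map_apply (measurable_pi_iff.2 fun i => H.measurable_Nc hA)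
    (MeasurableSet.singleton _)] at h2
  rw [Measure.map_apply (H.measurable_Nc hA) (MeasurableSet.singleton _)]
  simp only [Finset.univ_unique, Finset.prod_singleton] at h2
  rw [← h2]
  congr 1
  ext ω
  simp [funext_iff]

omit [MeasurableSingletonClass X] in
theorem IsPoissonSet.iIndepFun_Nc (H : IsPoissonSet P ξ μ) {ι : Type*} [Fintype ι]
    (A : ι → Set X) (hA : ∀ i, MeasurableSet (A i)) (hd : Pairwise (fun i j => Disjoint (A i) (A j)))
    (hfin : ∀ i, μ (A i) ≠ ∞) :
    iIndepFun (fun i => Nc ξ (A i)) P := by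
  rw [iIndepFun_iff_map_fun_eq_pi_map (fun i => (H.measurable_Nc (hA i)).aemeasurable)]
  rw [H.map_Nc A hA hd hfin]
  congr 1
  funext i
  rw [H.map_Nc_single (hA i) (hfin i)]

end Poisson

end Pool.Agent.Meteor
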