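import Mathlib
import Pool.Agent.Lib_helper89.Poisson.Counts

/-! Cylinder sets of measures, atoms, and uniqueness of laws on `Measure X`. -/

namespace Pool.Agent.Meteor

open MeasureTheory Filter ProbabilityTheory
open scoped ENNReal NNReal Topology

variable {Ω X : Type*} [MeasurableSpace Ω] [MeasurableSpace X]

/-- Cylinder sets. -/
def Cyl (K : ℕ → Set X) : Set (Set (Measure X)) :=
  {G | ∃ (ι : Type) (_ : Fintype ι) (m : ℕ) (A : ι → Set X) (B : Set (ι → ℝ≥0∞)),
    (∀ i, MeasurableSet (A i)) ∧ (∀ i, A i ⊆ K m) ∧ MeasurableSet B ∧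
    G = {ν | (fun i => ν (A i)) ∈ B}}

theorem isPiSystem_Cyl {K : ℕ → Set X} (hmono : Monotone K) : IsPiSystem (Cyl K) := by
  rintro G ⟨ι, _, m, A, B, hA, hAK, hB, rfl⟩ G' ⟨ι', _, m', A', B', hA', hAK', hB', rfl⟩ -
  refine ⟨ι ⊕ ι', inferInstance, max m m', Sum.elim A A',
    {v | (fun i => v (Sum.inl i)) ∈ B ∧ (fun i => v (Sum.inr i)) ∈ B'}, ?_, ?_, ?_, ?_⟩
  · rintro (i | i)
    · exact hA i
    · exact hA' i
  · rintro (i | i)
    · exact (hAK i).trans (hmono (le_max_left _ _))
    · exact (hAK' i).trans (hmono (le_max_right _ _))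
  · apply MeasurableSet.inter
    · exact (measurable_pi_iff.2 fun i => measurable_pi_apply _) hB
    · exact (measurable_pi_iff.2 fun i => measurable_pi_apply _) hB'
  · ext ν
    rfl

theorem measurableSet_Cyl {K : ℕ → Set X} {G : Set (Measure X)} (hG : G ∈ Cyl K) :
    MeasurableSet G := by
  obtain ⟨ι, _, m, A, B, hA, hAK, hB, rfl⟩ := hG
  exact (measurable_pi_iff.2 fun i => Measure.measurable_coe (hA i)) hB

theorem generateFrom_Cyl {K : ℕ → Set X} (hK : ∀ m, MeasurableSet (K m)) (hmono : Monotone K)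
    (hcov : ⋃ m, K m = Set.univ) :
    (Measure.instMeasurableSpace : MeasurableSpace (Measure X)) =
      MeasurableSpace.generateFrom (Cyl K) := by
  apply le_antisymm
  · refine iSup₂_le fun A hA => ?_
    rw [← measurable_iff_comap_le]
    have h1 : (fun ν : Measure X => ν A) = fun ν => ⨆ m, ν (A ∩ K m) := by
      funext ν
      rw [← Monotone.measure_iUnion, ← Set.inter_iUnion, hcov, Set.inter_univ]
      intro i j hij
      exact Set.inter_subset_inter_right _ (hmono hij)
    rw [h1]
    refine Measurable.iSup fun m => ?_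
    intro B hB
    apply MeasurableSpace.measurableSet_generateFrom
    refine ⟨Unit, inferInstance, m, fun _ => A ∩ K m, {v | v () ∈ B}, fun _ => hA.inter (hK m),
      fun _ => Set.inter_subset_right, ?_, ?_⟩
    · exact (measurable_pi_apply ()) hB
    · rfl
  · refine MeasurableSpace.generateFrom_le fun G hG => measurableSet_Cyl hG

/-- Atoms of a finite family. -/
def atomS {ι : Type*} (A : ι → Set X) (M : Set X) (s : Finset ι) : Set X :=
  {x | x ∈ M ∧ ∀ i, x ∈ A i ↔ i ∈ s}

omit [MeasurableSpace X] in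
theorem atomS_subset {ι : Type*} (A : ι → Set X) (M : Set X) (s : Finset ι) :
    atomS A M s ⊆ M := fun _ hx => hx.1

theorem measurableSet_atomS {ι : Type*} [Finite ι] {A : ι → Set X} {M : Set X}
    (hA : ∀ i, MeasurableSet (A i)) (hM : MeasurableSet M) (s : Finset ι) :
    MeasurableSet (atomS A M s) := by
  have : atomS A M s = M ∩ ⋂ i, {x | x ∈ A i ↔ i ∈ s} := by
    ext x; simp [atomS]
  rw [this]
  refine hM.inter (MeasurableSet.iInter fun i => ?_)
  by_cases h : i ∈ s
  · have : {x | x ∈ A i ↔ i ∈ s} = A i := by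
      ext x; simp [h]
    rw [this]
    exact hA i
  · have : {x | x ∈ A i ↔ i ∈ s} = (A i)ᶜ := by
      ext x; simp [h]
    rw [this]
    exact (hA i).compl

omit [MeasurableSpace X] in
theorem disjoint_atomS {ι : Type*} (A : ι → Set X) (M : Set X) :
    Pairwise (fun s t => Disjoint (atomS A M s) (atomS A M t)) := by
  intro s t hst
  rw [Set.disjoint_left]
  intro x hx hx'
  apply hst
  ext i
  rw [← hx.2 i, ← hx'.2 i]

open Classical in
omit [MeasurableSpace X] in
theorem eq_biUnion_atomS {ι : Type*} [Fintype ι] {A : ι → Set X} {M : Set X} {i : ι}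
    (hAM : A i ⊆ M) :
    A i = ⋃ s ∈ (Finset.univ.filter (fun s : Finset ι => i ∈ s)), atomS A M s := by
  ext x
  simp only [Finset.mem_filter, Finset.mem_univ, true_and, Set.mem_iUnion, exists_prop]
  constructor
  · intro hx
    refine ⟨Finset.univ.filter (fun j => x ∈ A j), by simpa using hx, hAM hx, fun j => by simp⟩
  · rintro ⟨s, hs, hx⟩
    exact (hx.2 i).2 hs

open Classical in
theorem measure_eq_sum_atomS {ι : Type*} [Fintype ι] {A : ι → Set X} {M : Set X}
    (hA : ∀ i, MeasurableSet (A i)) (hM : MeasurableSet M) {i : ι} (hAM : A i ⊆ M)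
    (ν : Measure X) :
    ν (A i) = ∑ s : Finset ι, if i ∈ s then ν (atomS A M s) else 0 := by
  conv_lhs => rw [eq_biUnion_atomS hAM]
  rw [measure_biUnion_finset]
  · rw [Finset.sum_filter]
  · intro s _ t _ hst
    exact disjoint_atomS A M hst
  · intro s _
    exact measurableSet_atomS hA hM s

/-- Two finite measures on `Measure X` agree if they induce the same joint laws of the masses of
disjoint sets. -/
theorem ext_of_disjoint {K : ℕ → Set X} (hK : ∀ m, MeasurableSet (K m)) (hmono : Monotone K)
    (hcov : ⋃ m, K m = Set.univ) {Q₁ Q₂ : Measure (Measure X)} [IsFiniteMeasure Q₁]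
    (h : ∀ (ι : Type) [Fintype ι] (m : ℕ) (A : ι → Set X), (∀ i, MeasurableSet (A i)) →
      (∀ i, A i ⊆ K m) → Pairwise (fun i j => Disjoint (A i) (A j)) →
      Q₁.map (fun ν i => ν (A i)) = Q₂.map (fun ν i => ν (A i))) : Q₁ = Q₂ := by
  classical
  refine ext_of_generate_finite _ (generateFrom_Cyl hK hmono hcov) (isPiSystem_Cyl hmono) ?_ ?_
  · rintro G ⟨ι, _, m, A, B, hA, hAK, hB, rfl⟩
    have h1 := h (Finset ι) m (atomS A (K m)) (measurableSet_atomS hA (hK m))
      (atomS_subset A (K m)) (disjoint_atomS A (K m))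
    have hmeas : Measurable (fun (v : Finset ι → ℝ≥0∞) (i : ι) =>
        ∑ s : Finset ι, if i ∈ s then v s else 0) := by
      refine measurable_pi_iff.2 fun i => Finset.measurable_sum _ fun s _ => ?_
      split_ifs
      · exact measurable_pi_apply s
      · exact measurable_const
    have h2 := congrArg (fun Q => Q ((fun (v : Finset ι → ℝ≥0∞) (i : ι) =>
        ∑ s : Finset ι, if i ∈ s then v s else 0) ⁻¹' B)) h1
    have hm2 : Measurable (fun (ν : Measure X) (s : Finset ι) => ν (atomS A (K m) s)) :=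
      measurable_pi_iff.2 fun s => Measure.measurable_coe (measurableSet_atomS hA (hK m) s)
    rw [Measure.map_apply hm2 (hmeas hB), Measure.map_apply hm2 (hmeas hB)] at h2
    have h3 : {ν : Measure X | (fun i => ν (A i)) ∈ B} =
        (fun (ν : Measure X) (s : Finset ι) => ν (atomS A (K m) s)) ⁻¹'
        ((fun (v : Finset ι → ℝ≥0∞) (i : ι) =>
        ∑ s : Finset ι, if i ∈ s then v s else 0) ⁻¹' B) := by
      ext ν
      have : (fun i => ν (A i)) = fun i => ∑ s : Finset ι, if i ∈ s then ν (atomS A (K m) s) else 0 := by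
        funext i
        rw [measure_eq_sum_atomS hA (hK m) (hAK i)]
      simp only [Set.mem_ofPred_eq, Set.mem_preimage, this]
    rw [h3]
    exact h2
  · have h1 := h Empty 0 (fun i => i.elim) (fun i => i.elim) (fun i => i.elim) (fun i => i.elim)
    have h2 := congrArg (fun Q => Q Set.univ) h1
    rw [Measure.map_apply (measurable_pi_iff.2 fun i => i.elim) MeasurableSet.univ,
      Measure.map_apply (measurable_pi_iff.2 fun i => i.elim) MeasurableSet.univ] at h2
    simpa using h2

end Pool.Agent.Meteor
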