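import Mathlib
import Pool.Agent.Lib_helper89.Poisson.Cyl

/-! Laws of Poisson random sets: uniqueness, independence of restrictions, resampling. -/

namespace Pool.Agent.Meteor

open MeasureTheory Filter ProbabilityTheory
open scoped ENNReal NNReal Topology

variable {Ω X : Type*} [MeasurableSpace Ω] [MeasurableSpace X]

section Poisson

variable {P : Measure Ω} [IsProbabilityMeasure P] {ξ : Ω → Set X} {μ : Measure X}

/-- Transport under a measure-preserving equivalence. -/
theorem IsPoissonSet.image {Y : Type*} [MeasurableSpace Y] {ν : Measure Y} (e : X ≃ᵐ Y)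
    (he : MeasurePreserving e μ ν) (H : IsPoissonSet P ξ μ) :
    IsPoissonSet P (fun ω => e '' ξ ω) ν := by
  have key : ∀ (ω : Ω) (A : Set Y), (e '' ξ ω ∩ A).encard = (ξ ω ∩ e ⁻¹' A).encard := by
    intro ω A
    rw [← Set.image_inter_preimage]
    exact e.injective.encard_image _
  refine ⟨fun A hA k => ?_, fun n A hA hd hfin k => ?_⟩
  · simp_rw [key]
    exact H.meas _ (e.measurable hA) k
  · simp_rw [key]
    rw [H.prob n (fun i => e ⁻¹' A i) (fun i => e.measurable (hA i))
      (fun i j hij => (hd i j hij).preimage e)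
      (fun i => by rw [he.measure_preimage (hA i).nullMeasurableSet]; exact hfin i) k]
    refine Finset.prod_congr rfl fun i _ => ?_
    rw [he.measure_preimage (hA i).nullMeasurableSet]

variable [MeasurableSingletonClass X]

theorem IsPoissonSet.map_cnt (H : IsPoissonSet P ξ μ) {ι : Type*} [Fintype ι]
    (A : ι → Set X) (hA : ∀ i, MeasurableSet (A i)) (hd : Pairwise (fun i j => Disjoint (A i) (A j)))
    (hfin : ∀ i, μ (A i) ≠ ∞) :
    P.map (fun ω i => cnt (ξ ω) (A i)) =
      (Measure.pi (fun i => poissonMeasure (μ (A i)).toNNReal)).map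
        (fun (k : ι → ℕ) (i : ι) => ((k i : ℕ) : ℝ≥0∞)) := by
  rw [← H.map_Nc A hA hd hfin, Measure.map_map (measurable_of_countable _)
    (measurable_pi_iff.2 fun i => H.measurable_Nc (hA i))]
  refine Measure.map_congr ?_
  have : ∀ᵐ ω ∂P, ∀ i, cnt (ξ ω) (A i) = (Nc ξ (A i) ω : ℝ≥0∞) :=
    ae_all_iff.2 fun i => H.cnt_ae (hA i) (hfin i)
  filter_upwards [this] with ω hω
  funext i
  exact hω i

theorem IsPoissonSet.iIndepFun_cnt (H : IsPoissonSet P ξ μ) {ι : Type*} [Fintype ι]
    (A : ι → Set X) (hA : ∀ i, MeasurableSet (A i)) (hd : Pairwise (fun i j => Disjoint (A i) (A j)))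
    (hfin : ∀ i, μ (A i) ≠ ∞) :
    iIndepFun (fun i ω => cnt (ξ ω) (A i)) P := by
  have h1 := (H.iIndepFun_Nc A hA hd hfin).comp (fun i (k : ℕ) => (k : ℝ≥0∞))
    (fun i => measurable_of_countable _)
  refine h1.congr fun i => ?_
  filter_upwards [H.cnt_ae (hA i) (hfin i)] with ω hω
  simp [hω]

theorem IsPoissonSet.measurable_cnt_apply (H : IsPoissonSet P ξ μ) {A : Set X}
    (hA : MeasurableSet A) : Measurable (fun ω => cnt (ξ ω) A) :=
  (Measure.measurable_coe hA).comp (measurable_cnt H)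

/-- Two tuples of counts over mutually disjoint sets are independent. -/
theorem IsPoissonSet.indep_tuples (H : IsPoissonSet P ξ μ) {ι κ : Type*} [Fintype ι] [Fintype κ]
    (A : ι → Set X) (B : κ → Set X) (hA : ∀ i, MeasurableSet (A i)) (hB : ∀ i, MeasurableSet (B i))
    (hdA : Pairwise (fun i j => Disjoint (A i) (A j)))
    (hdB : Pairwise (fun i j => Disjoint (B i) (B j)))
    (hAB : ∀ i j, Disjoint (A i) (B j))
    (hfA : ∀ i, μ (A i) ≠ ∞) (hfB : ∀ i, μ (B i) ≠ ∞) :
    IndepFun (fun ω i => cnt (ξ ω) (A i)) (fun ω j => cnt (ξ ω) (B j)) P := by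
  classical
  have h1 := H.iIndepFun_cnt (Sum.elim A B) (by rintro (i | i) <;> simp [hA, hB])
    (by
      rintro (i | i) (j | j) hij
      · exact hdA (fun h => hij (by rw [h]))
      · exact hAB i j
      · exact (hAB j i).symm
      · exact hdB (fun h => hij (by rw [h])))
    (by rintro (i | i) <;> simp [hfA, hfB])
  have h2 := h1.indepFun_finset (Finset.univ.image Sum.inl) (Finset.univ.image Sum.inr) (by
      rw [Finset.disjoint_left]
      rintro x hx hx'
      simp only [Finset.mem_image, Finset.mem_univ, true_and] at hx hx'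
      obtain ⟨i, rfl⟩ := hx
      obtain ⟨j, hj⟩ := hx'
      cases hj)
    (by
      rintro (i | i)
      · exact H.measurable_cnt_apply (hA i)
      · exact H.measurable_cnt_apply (hB i))
  have h3 := h2.comp
    (φ := fun (v : (Finset.univ.image (Sum.inl : ι → ι ⊕ κ)) → ℝ≥0∞) (i : ι) =>
      v ⟨Sum.inl i, Finset.mem_image_of_mem _ (Finset.mem_univ i)⟩)
    (ψ := fun (v : (Finset.univ.image (Sum.inr : κ → ι ⊕ κ)) → ℝ≥0∞) (i : κ) =>
      v ⟨Sum.inr i, Finset.mem_image_of_mem _ (Finset.mem_univ i)⟩)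
    (measurable_pi_iff.2 fun i => measurable_pi_apply _)
    (measurable_pi_iff.2 fun i => measurable_pi_apply _)
  exact h3

end Poisson

open Classical in
/-- Disjoint presentation of a cylinder set of restricted measures. -/
theorem Cyl.exists_disjoint {K : ℕ → Set X} (hK : ∀ m, MeasurableSet (K m)) {G : Set (Measure X)}
    (hG : G ∈ Cyl K) {A : Set X} (hA : MeasurableSet A) :
    ∃ (κ : Type) (_ : Fintype κ) (m : ℕ) (C : κ → Set X) (B : Set (κ → ℝ≥0∞)),
      (∀ s, MeasurableSet (C s)) ∧ (∀ s, C s ⊆ K m) ∧ (∀ s, C s ⊆ A) ∧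
      Pairwise (fun s t => Disjoint (C s) (C t)) ∧ MeasurableSet B ∧
      ∀ ν : Measure X, ν.restrict A ∈ G ↔ (fun s => ν (C s)) ∈ B := by
  obtain ⟨ι, _, m, D, B, hD, hDK, hB, rfl⟩ := hG
  have hD' : ∀ i, MeasurableSet (D i ∩ A) := fun i => (hD i).inter hA
  have hM' : MeasurableSet (K m ∩ A) := (hK m).inter hA
  have hDM : ∀ i, D i ∩ A ⊆ K m ∩ A := fun i => Set.inter_subset_inter_left _ (hDK i)
  have hmeas : Measurable (fun (v : Finset ι → ℝ≥0∞) (i : ι) =>
      ∑ s : Finset ι, if i ∈ s then v s else 0) := by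
    refine measurable_pi_iff.2 fun i => Finset.measurable_sum _ fun s _ => ?_
    split_ifs
    · exact measurable_pi_apply s
    · exact measurable_const
  refine ⟨Finset ι, inferInstance, m, atomS (fun i => D i ∩ A) (K m ∩ A),
    (fun (v : Finset ι → ℝ≥0∞) (i : ι) => ∑ s : Finset ι, if i ∈ s then v s else 0) ⁻¹' B,
    measurableSet_atomS hD' hM',
    fun s => (atomS_subset _ _ s).trans Set.inter_subset_left,
    fun s => (atomS_subset _ _ s).trans Set.inter_subset_right,
    disjoint_atomS _ _, hmeas hB, fun ν => ?_⟩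
  have : (fun i => ν.restrict A (D i)) =
      fun i => ∑ s : Finset ι, if i ∈ s then ν (atomS (fun i => D i ∩ A) (K m ∩ A) s) else 0 := by
    funext i
    rw [Measure.restrict_apply (hD i)]
    exact measure_eq_sum_atomS hD' hM' (hDM i) ν
  change (fun i => ν.restrict A (D i)) ∈ B ↔ _
  rw [this]
  rfl

theorem Cyl.restrict_iff {K : ℕ → Set X} (hmono : Monotone K) {G : Set (Measure X)}
    (hG : G ∈ Cyl K) : ∃ m₀, ∀ m, m₀ ≤ m → ∀ ν : Measure X, ν.restrict (K m) ∈ G ↔ ν ∈ G := by
  obtain ⟨ι, _, m, D, B, hD, hDK, hB, rfl⟩ := hG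
  refine ⟨m, fun m' hm' ν => ?_⟩
  have : (fun i => ν.restrict (K m') (D i)) = fun i => ν (D i) := by
    funext i
    rw [Measure.restrict_apply (hD i), Set.inter_eq_left.2 ((hDK i).trans (hmono hm'))]
  change (fun i => ν.restrict (K m') (D i)) ∈ B ↔ (fun i => ν (D i)) ∈ B
  rw [this]

section Poisson

variable [MeasurableSingletonClass X] {P : Measure Ω} [IsProbabilityMeasure P] {ξ : Ω → Set X}
  {μ : Measure X} {K : ℕ → Set X}

theorem ae_LF (H : IsPoissonSet P ξ μ) (hK : ∀ m, MeasurableSet (K m)) (hfin : ∀ m, μ (K m) < ∞) :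
    ∀ᵐ ω ∂P, cnt (ξ ω) ∈ LF K := by
  refine ae_all_iff.2 fun m => ?_
  filter_upwards [H.cnt_ae (hK m) (hfin m).ne] with ω hω
  rw [hω]
  exact ENNReal.natCast_lt_top _

omit [MeasurableSingletonClass X] in
theorem IsPoissonSet.prob_zero (H : IsPoissonSet P ξ μ) {A : Set X} (hA : MeasurableSet A)
    (hfin : μ A ≠ ∞) :
    P {ω | (ξ ω ∩ A).encard = 0} = ENNReal.ofReal (Real.exp (-(μ A).toReal)) := by
  have := H.prob 1 (fun _ => A) (fun _ => hA)
    (fun i j hij => (hij (Subsingleton.elim _ _)).elim) (fun _ => hfin) (fun _ => 0)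
  simpa using this

theorem ae_not_mem (H : IsPoissonSet P ξ μ) {x : X} (hx : μ {x} = 0) : ∀ᵐ ω ∂P, x ∉ ξ ω := by
  have h1 := H.prob_zero (MeasurableSet.singleton x) (by rw [hx]; simp)
  rw [hx] at h1
  simp only [ENNReal.toReal_zero, neg_zero, Real.exp_zero, ENNReal.ofReal_one] at h1
  have h2 := (prob_compl_eq_zero_iff (H.meas {x} (MeasurableSet.singleton x) 0)).2
    (by simpa using h1)
  rw [ae_iff]
  refine measure_mono_null ?_ h2
  intro ω hω h3
  have h3' : (ξ ω ∩ {x}).encard = 0 := by simpa using h3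
  rw [Set.encard_eq_zero] at h3'
  have h4 : x ∈ ξ ω := by simpa using hω
  have : x ∈ ξ ω ∩ {x} := ⟨h4, rfl⟩
  rw [h3'] at this
  exact this

/-- The law of the counting measure is determined by the intensity. -/
theorem law_unique {Ω' : Type*} [MeasurableSpace Ω'] {P' : Measure Ω'} [IsProbabilityMeasure P']
    {ξ' : Ω' → Set X} (H : IsPoissonSet P ξ μ) (H' : IsPoissonSet P' ξ' μ)
    (hK : ∀ m, MeasurableSet (K m)) (hmono : Monotone K) (hcov : ⋃ m, K m = Set.univ)
    (hfin : ∀ m, μ (K m) < ∞) :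
    P.map (fun ω => cnt (ξ ω)) = P'.map (fun ω => cnt (ξ' ω)) := by
  have : IsProbabilityMeasure (P.map (fun ω => cnt (ξ ω))) :=
    Measure.isProbabilityMeasure_map (measurable_cnt H).aemeasurable
  refine ext_of_disjoint hK hmono hcov fun ι _ m A hA hAK hd => ?_
  have hm : Measurable (fun (ν : Measure X) (i : ι) => ν (A i)) :=
    measurable_pi_iff.2 fun i => Measure.measurable_coe (hA i)
  have hf : ∀ i, μ (A i) ≠ ∞ := fun i => (lt_of_le_of_lt (measure_mono (hAK i)) (hfin m)).ne
  rw [Measure.map_map hm (measurable_cnt H), Measure.map_map hm (measurable_cnt H')]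
  exact (H.map_cnt A hA hd hf).trans (H'.map_cnt A hA hd hf).symm

/-- Independence of the restrictions to disjoint sets. -/
theorem indep_restrict (H : IsPoissonSet P ξ μ)
    (hK : ∀ m, MeasurableSet (K m)) (hmono : Monotone K) (hcov : ⋃ m, K m = Set.univ)
    (hfin : ∀ m, μ (K m) < ∞) {A B : Set X} (hA : MeasurableSet A) (hB : MeasurableSet B)
    (hAB : Disjoint A B) :
    IndepFun (fun ω => (cnt (ξ ω)).restrict A) (fun ω => (cnt (ξ ω)).restrict B) P := by
  have hmr : ∀ {A : Set X}, MeasurableSet A → Measurable (fun ω => (cnt (ξ ω)).restrict A) := by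
    intro A hA
    refine Measure.measurable_of_measurable_coe _ fun C hC => ?_
    simp_rw [Measure.restrict_apply hC]
    exact H.measurable_cnt_apply (hC.inter hA)
  have hgen : ∀ {A : Set X}, MeasurableSet A →
      MeasurableSpace.comap (fun ω => (cnt (ξ ω)).restrict A) Measure.instMeasurableSpace =
      MeasurableSpace.generateFrom
        (Set.preimage (fun ω => (cnt (ξ ω)).restrict A) '' (Cyl K)) := by
    intro A hA
    rw [generateFrom_Cyl hK hmono hcov, MeasurableSpace.comap_generateFrom]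
  rw [IndepFun_iff_Indep]
  refine IndepSets.indep (hmr hA).comap_le (hmr hB).comap_le
    ((isPiSystem_Cyl hmono).comap _) ((isPiSystem_Cyl hmono).comap _) (hgen hA) (hgen hB) ?_
  rw [IndepSets_iff]
  rintro _ _ ⟨G, hG, rfl⟩ ⟨G', hG', rfl⟩
  obtain ⟨κ, _, m, C, D, hC, hCK, hCA, hCd, hD, hiff⟩ := Cyl.exists_disjoint hK hG hA
  obtain ⟨κ', _, m', C', D', hC', hCK', hCA', hCd', hD', hiff'⟩ := Cyl.exists_disjoint hK hG' hB
  have hind := H.indep_tuples C C' hC hC' hCd hCd'
    (fun i j => hAB.mono (hCA i) (hCA' j))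
    (fun i => (lt_of_le_of_lt (measure_mono (hCK i)) (hfin m)).ne)
    (fun i => (lt_of_le_of_lt (measure_mono (hCK' i)) (hfin m')).ne)
  have h1 : (fun ω => (cnt (ξ ω)).restrict A) ⁻¹' G = (fun ω i => cnt (ξ ω) (C i)) ⁻¹' D := by
    ext ω; exact hiff _
  have h2 : (fun ω => (cnt (ξ ω)).restrict B) ⁻¹' G' = (fun ω i => cnt (ξ ω) (C' i)) ⁻¹' D' := by
    ext ω; exact hiff' _
  rw [h1, h2]
  exact hind.measure_inter_preimage_eq_mul _ _ hD hD'

/-- Resampling in `B` with an independent copy. -/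
theorem law_resample (H : IsPoissonSet P ξ μ)
    (hK : ∀ m, MeasurableSet (K m)) (hmono : Monotone K) (hcov : ⋃ m, K m = Set.univ)
    (hfin : ∀ m, μ (K m) < ∞) {B : Set X} (hB : MeasurableSet B) :
    (P.prod P).map (fun p : Ω × Ω => cnt ((ξ p.1 \ B) ∪ (ξ p.2 ∩ B))) =
      P.map (fun ω => cnt (ξ ω)) := by
  have hmr : ∀ {A : Set X}, MeasurableSet A → Measurable (fun ω => (cnt (ξ ω)).restrict A) := by
    intro A hA
    refine Measure.measurable_of_measurable_coe _ fun C hC => ?_
    simp_rw [Measure.restrict_apply hC]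
    exact H.measurable_cnt_apply (hC.inter hA)
  have hind := indep_restrict H hK hmono hcov hfin hB.compl hB disjoint_compl_left
  rw [indepFun_iff_map_prod_eq_prod_map_map (hmr hB.compl).aemeasurable (hmr hB).aemeasurable,
    Measure.map_prod_map _ _ (hmr hB.compl) (hmr hB)] at hind
  have h2 := congrArg (fun Q => Q.map (fun p : Measure X × Measure X => p.1 + p.2)) hind
  have hadd : Measurable (fun p : Measure X × Measure X => p.1 + p.2) :=
    measurable_fst.add measurable_snd
  rw [Measure.map_map hadd ((hmr hB.compl).prodMk (hmr hB)),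
    Measure.map_map hadd (Measurable.prodMap (hmr hB.compl) (hmr hB))] at h2
  have h3 : (fun ω => cnt (ξ ω)) = (fun p : Measure X × Measure X => p.1 + p.2) ∘
      (fun ω => ((cnt (ξ ω)).restrict Bᶜ, (cnt (ξ ω)).restrict B)) := by
    funext ω
    simp only [Function.comp]
    rw [add_comm]
    exact (Measure.restrict_add_restrict_compl hB).symm
  have h4 : (fun p : Ω × Ω => cnt ((ξ p.1 \ B) ∪ (ξ p.2 ∩ B))) =
      (fun p : Measure X × Measure X => p.1 + p.2) ∘
        (Prod.map (fun ω => (cnt (ξ ω)).restrict Bᶜ) (fun ω => (cnt (ξ ω)).restrict B)) := by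
    funext p
    refine Measure.ext fun C hC => ?_
    simp only [Function.comp, Prod.map]
    rw [Measure.add_apply, Measure.restrict_apply hC, Measure.restrict_apply hC,
      cnt_apply _ hC, cnt_apply _ (hC.inter hB.compl), cnt_apply _ (hC.inter hB)]
    have h5 : ((ξ p.1 \ B) ∪ (ξ p.2 ∩ B)) ∩ C = (ξ p.1 ∩ (C ∩ Bᶜ)) ∪ (ξ p.2 ∩ (C ∩ B)) := by
      ext x
      simp only [Set.mem_inter_iff, Set.mem_union, Set.mem_sdiff, Set.mem_compl_iff]
      tauto
    rw [h5, Set.encard_union_eq]
    · push_cast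
      rfl
    · rw [Set.disjoint_left]
      intro x hx hx'
      exact hx.2.2 hx'.2.2
  rw [h3, h4]
  exact h2.symm

end Poisson

end Pool.Agent.Meteor
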