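import Mathlib
import Pool.Agent.Lib_helper89.Poisson.Laws

/-! The Mecke formula for Poisson random sets. -/

namespace Pool.Agent.Meteor

open MeasureTheory Filter ProbabilityTheory
open scoped ENNReal NNReal Topology

variable {Ω X : Type*} [MeasurableSpace Ω] [MeasurableSpace X]

theorem poisson_succ (r : ℝ≥0) (n : ℕ) :
    ((n + 1 : ℕ) : ℝ≥0∞) * poissonMeasure r {n + 1} = r * poissonMeasure r {n} := by
  rw [poissonMeasure_singleton, poissonMeasure_singleton]
  have h1 : ((n + 1 : ℕ) : ℝ≥0∞) = ENNReal.ofReal ((n + 1 : ℕ) : ℝ) :=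
    (ENNReal.ofReal_natCast _).symm
  have h2 : (r : ℝ≥0∞) = ENNReal.ofReal (r : ℝ) := by simp
  rw [h1, h2, ← ENNReal.ofReal_mul (by positivity), ← ENNReal.ofReal_mul (by positivity)]
  congr 1
  rw [Nat.factorial_succ]
  have h3 : (Nat.factorial n : ℝ) ≠ 0 := by exact_mod_cast Nat.factorial_ne_zero n
  have h4 : ((n + 1 : ℕ) : ℝ) ≠ 0 := by positivity
  push_cast at h4 ⊢
  field_simp
  ring

/-- The multivariate Chen identity for products of Poisson distributions. -/
theorem pi_poisson_mecke {κ : Type*} [Fintype κ] [DecidableEq κ] (r : κ → ℝ≥0) (s₀ : κ)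
    (g : (κ → ℕ) → ℝ≥0∞) :
    ∫⁻ k, ((k s₀ : ℕ) : ℝ≥0∞) * g k ∂(Measure.pi (fun s => poissonMeasure (r s))) =
      r s₀ * ∫⁻ k, g (k + Pi.single s₀ 1) ∂(Measure.pi (fun s => poissonMeasure (r s))) := by
  rw [lintegral_countable', lintegral_countable', ← ENNReal.tsum_mul_left]
  simp_rw [Measure.pi_singleton]
  have hinj : Function.Injective (fun k : κ → ℕ => k + Pi.single s₀ 1) := fun a b h => by
    simpa using h
  rw [← hinj.tsum_eq]
  · refine tsum_congr fun k => ?_
    have h1 : ((((k + Pi.single s₀ 1 : κ → ℕ)) s₀ : ℕ) : ℝ≥0∞) *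
        ∏ i, poissonMeasure (r i) {(k + Pi.single s₀ 1 : κ → ℕ) i} =
        r s₀ * ∏ i, poissonMeasure (r i) {k i} := by
      rw [← Finset.mul_prod_erase Finset.univ _ (Finset.mem_univ s₀),
        ← Finset.mul_prod_erase Finset.univ (fun i => poissonMeasure (r i) {k i})
          (Finset.mem_univ s₀), ← mul_assoc, ← mul_assoc]
      congr 1
      · simp only [Pi.add_apply, Pi.single_eq_same]
        exact poisson_succ _ _
      · refine Finset.prod_congr rfl fun i hi => ?_
        have : i ≠ s₀ := Finset.ne_of_mem_erase hi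
        simp [this]
    calc _ = g (k + Pi.single s₀ 1) * (((((k + Pi.single s₀ 1 : κ → ℕ)) s₀ : ℕ) : ℝ≥0∞) *
        ∏ i, poissonMeasure (r i) {(k + Pi.single s₀ 1 : κ → ℕ) i}) := by ring
      _ = _ := by rw [h1]; ring
  · intro k hk
    rw [Function.mem_support] at hk
    have h0 : k s₀ ≠ 0 := by
      intro h
      apply hk
      simp [h]
    refine ⟨k - Pi.single s₀ 1, ?_⟩
    funext i
    by_cases hi : i = s₀
    · subst hi
      simp only [Pi.add_apply, Pi.sub_apply, Pi.single_eq_same]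
      omega
    · simp [hi]

section Poisson

variable [MeasurableSingletonClass X] {P : Measure Ω} [IsProbabilityMeasure P] {ξ : Ω → Set X}
  {μ : Measure X} {K : ℕ → Set X}

theorem IsPoissonSet.mecke_disjoint (H : IsPoissonSet P ξ μ) {κ : Type*} [Fintype κ]
    [DecidableEq κ] (A : κ → Set X) (hA : ∀ i, MeasurableSet (A i))
    (hd : Pairwise (fun i j => Disjoint (A i) (A j)))
    (hfin : ∀ i, μ (A i) ≠ ∞) (s₀ : κ) {g : (κ → ℝ≥0∞) → ℝ≥0∞} (hg : Measurable g) :
    ∫⁻ ω, cnt (ξ ω) (A s₀) * g (fun s => cnt (ξ ω) (A s)) ∂P =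
      μ (A s₀) * ∫⁻ ω, g (fun s => cnt (ξ ω) (A s) + if s = s₀ then 1 else 0) ∂P := by
  have hm : Measurable (fun ω (s : κ) => cnt (ξ ω) (A s)) :=
    measurable_pi_iff.2 fun i => H.measurable_cnt_apply (hA i)
  have hcast : Measurable (fun (k : κ → ℕ) (i : κ) => ((k i : ℕ) : ℝ≥0∞)) :=
    measurable_of_countable _
  have hg2 : Measurable (fun v : κ → ℝ≥0∞ => v s₀ * g v) := (measurable_pi_apply s₀).mul hg
  have hg3 : Measurable (fun v : κ → ℝ≥0∞ => g (fun s => v s + if s = s₀ then 1 else 0)) :=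
    hg.comp (measurable_pi_iff.2 fun i => (measurable_pi_apply i).add_const _)
  have e1 : ∫⁻ ω, cnt (ξ ω) (A s₀) * g (fun s => cnt (ξ ω) (A s)) ∂P =
      ∫⁻ v, v s₀ * g v ∂(P.map (fun ω (s : κ) => cnt (ξ ω) (A s))) :=
    (lintegral_map hg2 hm).symm
  have e2 : ∫⁻ ω, g (fun s => cnt (ξ ω) (A s) + if s = s₀ then 1 else 0) ∂P =
      ∫⁻ v, g (fun s => v s + if s = s₀ then 1 else 0)
        ∂(P.map (fun ω (s : κ) => cnt (ξ ω) (A s))) :=
    (lintegral_map hg3 hm).symm
  rw [e1, e2, H.map_cnt A hA hd hfin, lintegral_map hg2 hcast, lintegral_map hg3 hcast]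
  rw [pi_poisson_mecke (fun i => (μ (A i)).toNNReal) s₀
    (fun k => g (fun i => ((k i : ℕ) : ℝ≥0∞))), ENNReal.coe_toNNReal (hfin s₀)]
  congr 1
  refine lintegral_congr fun k => ?_
  congr 1
  funext i
  by_cases hi : i = s₀
  · subst hi; simp
  · simp [hi]

theorem IsPoissonSet.lintegral_cnt (H : IsPoissonSet P ξ μ) {A : Set X} (hA : MeasurableSet A)
    (hfin : μ A ≠ ∞) : ∫⁻ ω, cnt (ξ ω) A ∂P = μ A := by
  have := H.mecke_disjoint (κ := Unit) (fun _ => A) (fun _ => hA)
    (fun i j hij => (hij rfl).elim) (fun _ => hfin) () (g := fun _ => 1) measurable_const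
  simpa using this

theorem IsPoissonSet.mecke_cyl (H : IsPoissonSet P ξ μ)
    (hK : ∀ m, MeasurableSet (K m)) (hmono : Monotone K)
    (hfin : ∀ m, μ (K m) < ∞) {C : Set X} (hC : MeasurableSet C) {m₀ : ℕ} (hCK : C ⊆ K m₀)
    {G : Set (Measure X)} (hG : G ∈ Cyl K) :
    ∫⁻ ω, cnt (ξ ω) C * G.indicator 1 (cnt (ξ ω)) ∂P =
      ∫⁻ x in C, ∫⁻ ω, G.indicator 1 (cnt (ξ ω) + Measure.dirac x) ∂P ∂μ := by
  classical
  obtain ⟨ι, _, m, D, B, hD, hDK, hB, rfl⟩ := hG
  let M := K (max m m₀)
  have hM : MeasurableSet M := hK _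
  let E : Option ι → Set X := fun o => o.elim C D
  have hE : ∀ o, MeasurableSet (E o) := by
    rintro (_ | i)
    · exact hC
    · exact hD i
  have hEM : ∀ o, E o ⊆ M := by
    rintro (_ | i)
    · exact hCK.trans (hmono (le_max_right _ _))
    · exact (hDK i).trans (hmono (le_max_left _ _))
  let A : Finset (Option ι) → Set X := atomS E M
  have hA : ∀ s, MeasurableSet (A s) := measurableSet_atomS hE hM
  have hAd : Pairwise (fun s t => Disjoint (A s) (A t)) := disjoint_atomS E M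
  have hAf : ∀ s, μ (A s) ≠ ∞ := fun s =>
    (lt_of_le_of_lt (measure_mono (atomS_subset E M s)) (hfin _)).ne
  let g : (Finset (Option ι) → ℝ≥0∞) → ℝ≥0∞ := fun v =>
    B.indicator 1 (fun i => ∑ s : Finset (Option ι), if some i ∈ s then v s else 0)
  have hg : Measurable g := by
    refine (measurable_const.indicator hB).comp ?_
    refine measurable_pi_iff.2 fun i => Finset.measurable_sum _ fun s _ => ?_
    split_ifs
    · exact measurable_pi_apply s
    · exact measurable_const
  have hgν : ∀ ν : Measure X, ({ν : Measure X | (fun i => ν (D i)) ∈ B}).indicator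
      (1 : Measure X → ℝ≥0∞) ν = g (fun s => ν (A s)) := by
    intro ν
    have h1 : (fun i => ν (D i)) =
        fun i => ∑ s : Finset (Option ι), if some i ∈ s then ν (A s) else 0 := by
      funext i
      convert! measure_eq_sum_atomS hE hM (i := some i) (hEM _) ν
    simp only [g, ← h1]
    rfl
  simp_rw [hgν]
  have hCν : ∀ ν : Measure X, ν C = ∑ s : Finset (Option ι), if none ∈ s then ν (A s) else 0 :=
    fun ν => by convert! measure_eq_sum_atomS hE hM (i := none) (hEM _) ν
  have hCeq : C = ⋃ s ∈ (Finset.univ.filter (fun s : Finset (Option ι) => none ∈ s)), A s := by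
    convert! eq_biUnion_atomS (A := E) (i := none) (hEM _)
  have hmc : Measurable (fun ω => g (fun s => cnt (ξ ω) (A s))) :=
    hg.comp (measurable_pi_iff.2 fun i => H.measurable_cnt_apply (hA i))
  calc ∫⁻ ω, cnt (ξ ω) C * g (fun s => cnt (ξ ω) (A s)) ∂P
      = ∫⁻ ω, ∑ s ∈ Finset.univ.filter (fun s : Finset (Option ι) => none ∈ s),
          cnt (ξ ω) (A s) * g (fun s => cnt (ξ ω) (A s)) ∂P := by
        refine lintegral_congr fun ω => ?_
        rw [hCν, ← Finset.sum_filter, Finset.sum_mul]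
    _ = ∑ s ∈ Finset.univ.filter (fun s : Finset (Option ι) => none ∈ s),
          ∫⁻ ω, cnt (ξ ω) (A s) * g (fun s => cnt (ξ ω) (A s)) ∂P :=
        lintegral_finsetSum _ fun s _ => (H.measurable_cnt_apply (hA s)).mul hmc
    _ = ∑ s ∈ Finset.univ.filter (fun s : Finset (Option ι) => none ∈ s),
          ∫⁻ x in A s, ∫⁻ ω, g (fun s => (cnt (ξ ω) + Measure.dirac x) (A s)) ∂P ∂μ := by
        refine Finset.sum_congr rfl fun s hs => ?_
        rw [H.mecke_disjoint A hA hAd hAf s hg]
        have h2 : ∀ x ∈ A s, ∫⁻ ω, g (fun s => (cnt (ξ ω) + Measure.dirac x) (A s)) ∂P =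
            ∫⁻ ω, g (fun t => cnt (ξ ω) (A t) + if t = s then 1 else 0) ∂P := by
          intro x hx
          refine lintegral_congr fun ω => ?_
          congr 1
          funext t
          rw [Measure.add_apply, Measure.dirac_apply' _ (hA t)]
          congr 1
          by_cases ht : t = s
          · subst ht; simp [hx]
          · have : x ∉ A t := fun h => (Set.disjoint_left.1 (hAd ht)) h hx
            simp [ht, this]
        rw [setLIntegral_congr_fun (hA s) h2, setLIntegral_const, mul_comm]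
    _ = ∫⁻ x in C, ∫⁻ ω, g (fun s => (cnt (ξ ω) + Measure.dirac x) (A s)) ∂P ∂μ := by
        conv_rhs => rw [hCeq]
        rw [lintegral_biUnion_finset]
        · intro s _ t _ hst
          exact hAd hst
        · intro s _; exact hA s

omit [MeasurableSingletonClass X] in
theorem measurable_add_dirac {f : Ω → Measure X} (hf : Measurable f) :
    Measurable (fun p : X × Ω => f p.2 + Measure.dirac p.1) :=
  (hf.comp measurable_snd).add (Measure.measurable_dirac.comp measurable_fst)

/-- Mecke formula for rectangles with bounded base. -/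
theorem IsPoissonSet.mecke_rect (H : IsPoissonSet P ξ μ)
    (hK : ∀ m, MeasurableSet (K m)) (hmono : Monotone K) (hcov : ⋃ m, K m = Set.univ)
    (hfin : ∀ m, μ (K m) < ∞) {C : Set X} (hC : MeasurableSet C) {m₀ : ℕ} (hCK : C ⊆ K m₀)
    {G : Set (Measure X)} (hG : MeasurableSet G) :
    ∫⁻ ω in (fun ω => cnt (ξ ω)) ⁻¹' G, cnt (ξ ω) C ∂P =
      ∫⁻ x in C, P {ω | cnt (ξ ω) + Measure.dirac x ∈ G} ∂μ := by
  have hΦ := measurable_cnt H
  have hCf : μ C < ∞ := lt_of_le_of_lt (measure_mono hCK) (hfin m₀)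
  have : IsFiniteMeasure (μ.restrict C) := ⟨by simpa using hCf⟩
  have hmd := measurable_add_dirac hΦ
  let Q₁ : Measure (Measure X) := (P.withDensity (fun ω => cnt (ξ ω) C)).map (fun ω => cnt (ξ ω))
  let Q₂ : Measure (Measure X) := ((μ.restrict C).prod P).map
    (fun p : X × Ω => cnt (ξ p.2) + Measure.dirac p.1)
  have hQ₁ : ∀ G : Set (Measure X), MeasurableSet G →
      Q₁ G = ∫⁻ ω in (fun ω => cnt (ξ ω)) ⁻¹' G, cnt (ξ ω) C ∂P := by
    intro G hG
    rw [Measure.map_apply hΦ hG, withDensity_apply _ (hΦ hG)]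
  have hQ₂ : ∀ G : Set (Measure X), MeasurableSet G →
      Q₂ G = ∫⁻ x in C, P {ω | cnt (ξ ω) + Measure.dirac x ∈ G} ∂μ := by
    intro G hG
    rw [Measure.map_apply hmd hG, Measure.prod_apply (hmd hG)]
    rfl
  have hfinQ : IsFiniteMeasure Q₁ := by
    refine ⟨?_⟩
    rw [hQ₁ _ MeasurableSet.univ, Set.preimage_univ, Measure.restrict_univ,
      H.lintegral_cnt hC hCf.ne]
    exact hCf
  have heq : Q₁ = Q₂ := by
    refine ext_of_generate_finite _ (generateFrom_Cyl hK hmono hcov) (isPiSystem_Cyl hmono) ?_ ?_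
    · intro G hG
      have hGm := measurableSet_Cyl hG
      rw [hQ₁ G hGm, hQ₂ G hGm]
      have h1 := H.mecke_cyl hK hmono hfin hC hCK hG
      have h2 : ∫⁻ ω in (fun ω => cnt (ξ ω)) ⁻¹' G, cnt (ξ ω) C ∂P =
          ∫⁻ ω, cnt (ξ ω) C * G.indicator 1 (cnt (ξ ω)) ∂P := by
        rw [← lintegral_indicator (hΦ hGm)]
        refine lintegral_congr fun ω => ?_
        by_cases h : cnt (ξ ω) ∈ G
        · rw [Set.indicator_of_mem (by exact h), Set.indicator_of_mem h]; simp
        · rw [Set.indicator_of_notMem (by exact h), Set.indicator_of_notMem h]; simp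
      rw [h2, h1]
      refine lintegral_congr fun x => ?_
      have h3 : MeasurableSet {ω | cnt (ξ ω) + Measure.dirac x ∈ G} :=
        (hΦ.add_const (Measure.dirac x)) hGm
      rw [← lintegral_indicator_one h3]
      rfl
    · rw [hQ₁ _ MeasurableSet.univ, hQ₂ _ MeasurableSet.univ]
      simp [H.lintegral_cnt hC hCf.ne]
  rw [← hQ₁ G hG, ← hQ₂ G hG, heq]

/-- Mecke formula. -/
theorem mecke (H : IsPoissonSet P ξ μ)
    (hK : ∀ m, MeasurableSet (K m)) (hmono : Monotone K) (hcov : ⋃ m, K m = Set.univ)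
    (hfin : ∀ m, μ (K m) < ∞) {f : X × Measure X → ℝ≥0∞} (hf : Measurable f) :
    ∫⁻ ω, ∫⁻ x, f (x, cnt (ξ ω)) ∂(cnt (ξ ω)) ∂P =
      ∫⁻ x, ∫⁻ ω, f (x, cnt (ξ ω) + Measure.dirac x) ∂P ∂μ := by
  have hΦ := measurable_cnt H
  have hmd : Measurable (fun p : Ω × X => (cnt (ξ p.1) + Measure.dirac p.2, p.2)) :=
    ((hΦ.comp measurable_fst).add (Measure.measurable_dirac.comp measurable_snd)).prodMk
      measurable_snd
  have hsig : SigmaFinite μ := ⟨⟨⟨K, fun _ => trivial, hfin, hcov⟩⟩⟩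
  have hgs : IsSFiniteKernel (goodK K hK) := goodK_sfinite hK hcov
  have : IsProbabilityMeasure (P.map (fun ω => cnt (ξ ω))) :=
    Measure.isProbabilityMeasure_map hΦ.aemeasurable
  let M₁ : Measure (Measure X × X) := (P.map (fun ω => cnt (ξ ω))) ⊗ₘ (goodK K hK)
  let M₂ : Measure (Measure X × X) := (P.prod μ).map
    (fun p : Ω × X => (cnt (ξ p.1) + Measure.dirac p.2, p.2))
  have hgood : ∀ᵐ ω ∂P, goodK K hK (cnt (ξ ω)) = cnt (ξ ω) := by
    filter_upwards [ae_LF H hK hfin] with ω hω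
    exact goodK_apply hK hω
  have hrect : ∀ (S : Set (Measure X)) (T : Set X) (m : ℕ), MeasurableSet S → MeasurableSet T →
      T ⊆ K m → M₁ (S ×ˢ T) = M₂ (S ×ˢ T) := by
    intro S T m hS hT hTK
    have e1 : M₁ (S ×ˢ T) = ∫⁻ ω in (fun ω => cnt (ξ ω)) ⁻¹' S, cnt (ξ ω) T ∂P := by
      rw [Measure.compProd_apply_prod hS hT,
        setLIntegral_map hS (Kernel.measurable_coe _ hT) hΦ]
      refine lintegral_congr_ae (ae_restrict_of_ae ?_)
      filter_upwards [hgood] with ω hω
      simp [hω]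
    have e2 : M₂ (S ×ˢ T) = ∫⁻ x in T, P {ω | cnt (ξ ω) + Measure.dirac x ∈ S} ∂μ := by
      rw [Measure.map_apply hmd (hS.prod hT), Measure.prod_apply_symm (hmd (hS.prod hT)),
        ← lintegral_indicator hT]
      refine lintegral_congr fun x => ?_
      by_cases hx : x ∈ T
      · rw [Set.indicator_of_mem hx]
        congr 1
        ext ω
        simp [hx]
      · rw [Set.indicator_of_notMem hx]
        have : ((fun ω => (ω, x)) ⁻¹' ((fun p : Ω × X =>
          (cnt (ξ p.1) + Measure.dirac p.2, p.2)) ⁻¹' S ×ˢ T)) = ∅ := by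
          ext ω
          simp [hx]
        rw [this, measure_empty]
    rw [e1, e2]
    exact H.mecke_rect hK hmono hcov hfin hT hTK hS
  have hKuniv : ∀ m, MeasurableSet ((Set.univ : Set (Measure X)) ×ˢ K m) := fun m =>
    MeasurableSet.univ.prod (hK m)
  have heq : M₁ = M₂ := by
    have h1 : ∀ m, M₁.restrict ((Set.univ : Set (Measure X)) ×ˢ K m) =
        M₂.restrict ((Set.univ : Set (Measure X)) ×ˢ K m) := by
      intro m
      have hfinM : IsFiniteMeasure (M₁.restrict ((Set.univ : Set (Measure X)) ×ˢ K m)) := by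
        refine ⟨?_⟩
        rw [Measure.restrict_apply MeasurableSet.univ, Set.univ_inter]
        rw [Measure.compProd_apply_prod MeasurableSet.univ (hK m),
          setLIntegral_map MeasurableSet.univ (Kernel.measurable_coe _ (hK m)) hΦ,
          Set.preimage_univ, Measure.restrict_univ]
        have : ∫⁻ ω, (goodK K hK) (cnt (ξ ω)) (K m) ∂P = ∫⁻ ω, cnt (ξ ω) (K m) ∂P := by
          refine lintegral_congr_ae ?_
          filter_upwards [hgood] with ω hω
          simp [hω]
        rw [this, H.lintegral_cnt (hK m) (hfin m).ne]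
        exact hfin m
      refine Measure.ext_prod fun {S T} hS hT => ?_
      rw [Measure.restrict_apply (hS.prod hT), Measure.restrict_apply (hS.prod hT),
        Set.prod_inter_prod, Set.inter_univ]
      exact hrect _ _ m hS (hT.inter (hK m)) Set.inter_subset_right
    have h2 := (Measure.restrict_iUnion_congr (μ := M₁) (ν := M₂)).2 h1
    have h3 : ⋃ m, ((Set.univ : Set (Measure X)) ×ˢ K m) = Set.univ := by
      rw [← Set.prod_iUnion, hcov, Set.univ_prod_univ]
    rwa [h3, Measure.restrict_univ, Measure.restrict_univ] at h2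
  have hf' : Measurable (fun p : Measure X × X => f (p.2, p.1)) := hf.comp measurable_swap
  have hL : ∫⁻ p, f (p.2, p.1) ∂M₁ = ∫⁻ ω, ∫⁻ x, f (x, cnt (ξ ω)) ∂(cnt (ξ ω)) ∂P := by
    rw [Measure.lintegral_compProd hf', lintegral_map (Measurable.lintegral_kernel_prod_right' hf')
      hΦ]
    refine lintegral_congr_ae ?_
    filter_upwards [hgood] with ω hω
    simp only [hω]
  have hR : ∫⁻ p, f (p.2, p.1) ∂M₂ =
      ∫⁻ x, ∫⁻ ω, f (x, cnt (ξ ω) + Measure.dirac x) ∂P ∂μ := by
    rw [lintegral_map hf' hmd]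
    exact lintegral_prod_symm' _ (hf'.comp hmd)
  rw [← hL, ← hR, heq]

end Poisson

end Pool.Agent.Meteor
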