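import Mathlib
import Pool.Agent.Lib_helper89.Poisson.Mecke

/-! The zero-one law for invariant events of Poisson random sets. -/

namespace Pool.Agent.Meteor

open MeasureTheory Filter ProbabilityTheory
open scoped ENNReal NNReal Topology

variable {Ω X : Type*} [MeasurableSpace Ω] [MeasurableSpace X]

section Poisson

variable [MeasurableSingletonClass X] {P : Measure Ω} [IsProbabilityMeasure P] {ξ : Ω → Set X}
  {μ : Measure X} {K : ℕ → Set X}

theorem cnt_image {Y : Type*} [MeasurableSpace Y] [MeasurableSingletonClass Y] (e : X ≃ᵐ Y)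
    (F : Set X) : cnt (e '' F) = (cnt F).map e := by
  refine Measure.ext fun A hA => ?_
  rw [Measure.map_apply e.measurable hA, cnt_apply _ hA, cnt_apply _ (e.measurable hA),
    ← Set.image_inter_preimage, e.injective.encard_image]

/-- The law is invariant under measure-preserving equivalences. -/
theorem law_map (H : IsPoissonSet P ξ μ)
    (hK : ∀ m, MeasurableSet (K m)) (hmono : Monotone K) (hcov : ⋃ m, K m = Set.univ)
    (hfin : ∀ m, μ (K m) < ∞) (e : X ≃ᵐ X) (he : MeasurePreserving e μ μ) :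
    P.map (fun ω => (cnt (ξ ω)).map e) = P.map (fun ω => cnt (ξ ω)) := by
  have h1 := law_unique (H.image e he) H hK hmono hcov hfin
  simp_rw [cnt_image] at h1
  exact h1

theorem law_map_iterate (H : IsPoissonSet P ξ μ)
    (hK : ∀ m, MeasurableSet (K m)) (hmono : Monotone K) (hcov : ⋃ m, K m = Set.univ)
    (hfin : ∀ m, μ (K m) < ∞) (e : X ≃ᵐ X) (he : MeasurePreserving e μ μ) (n : ℕ) :
    P.map (fun ω => (cnt (ξ ω)).map (e^[n])) = P.map (fun ω => cnt (ξ ω)) := by
  induction n with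
  | zero =>
    simp
  | succ n ih =>
    have h1 : (fun ω => (cnt (ξ ω)).map (e^[n + 1])) =
        (fun ν : Measure X => ν.map e) ∘ (fun ω => (cnt (ξ ω)).map (e^[n])) := by
      funext ω
      simp only [Function.comp]
      rw [Measure.map_map e.measurable (e.measurable.iterate n), ← Function.iterate_succ']
    have h2 : Measurable (fun ω => (cnt (ξ ω)).map (e^[n])) :=
      (Measure.measurable_map _ (e.measurable.iterate n)).comp (measurable_cnt H)
    rw [h1, ← Measure.map_map (Measure.measurable_map _ e.measurable) h2, ih,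
      Measure.map_map (Measure.measurable_map _ e.measurable) (measurable_cnt H)]
    exact law_map H hK hmono hcov hfin e he

/-- Asymptotic independence along shifts. -/
theorem mixing (H : IsPoissonSet P ξ μ)
    (hK : ∀ m, MeasurableSet (K m)) (hmono : Monotone K) (hcov : ⋃ m, K m = Set.univ)
    (hfin : ∀ m, μ (K m) < ∞) (e : X ≃ᵐ X) (he : MeasurePreserving e μ μ)
    (n : ℕ → ℕ) (hn : ∀ m, Disjoint (K m) ((e^[n m]) ⁻¹' (K m)))
    {G : Set (Measure X)} (hG : MeasurableSet G) {D : Set (Measure X)} (hD : D ∈ Cyl K) :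
    Tendsto (fun m => (P {ω | cnt (ξ ω) ∈ D ∧ (cnt (ξ ω)).map (e^[n m]) ∈ G}).toReal) atTop
      (𝓝 ((P {ω | cnt (ξ ω) ∈ D}).toReal * (P {ω | cnt (ξ ω) ∈ G}).toReal)) := by
  have hΦ := measurable_cnt H
  have hT : ∀ m, Measurable (fun ω => (cnt (ξ ω)).map (e^[n m])) := fun m =>
    (Measure.measurable_map _ (e.measurable.iterate _)).comp hΦ
  have hDm := measurableSet_Cyl hD
  have hlaw : ∀ (G : Set (Measure X)) (m : ℕ), MeasurableSet G →
      P {ω | (cnt (ξ ω)).map (e^[n m]) ∈ G} = P {ω | cnt (ξ ω) ∈ G} := by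
    intro G m hG
    have := congrArg (fun Q => Q G) (law_map_iterate H hK hmono hcov hfin e he (n m))
    rw [Measure.map_apply (hT m) hG, Measure.map_apply hΦ hG] at this
    exact this
  have hmeas : ∀ (G : Set (Measure X)) (m : ℕ), MeasurableSet G →
      MeasurableSet {ω | cnt (ξ ω) ∈ D ∧ (cnt (ξ ω)).map (e^[n m]) ∈ G} := fun G m hG =>
    (hΦ hDm).inter (hT m hG)
  refine MeasurableSpace.induction_on_inter (C := fun G _ => Tendsto (fun m =>
    (P {ω | cnt (ξ ω) ∈ D ∧ (cnt (ξ ω)).map (e^[n m]) ∈ G}).toReal) atTop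
      (𝓝 ((P {ω | cnt (ξ ω) ∈ D}).toReal * (P {ω | cnt (ξ ω) ∈ G}).toReal)))
    (generateFrom_Cyl hK hmono hcov) (isPiSystem_Cyl hmono) ?_ ?_ ?_ ?_ G hG
  · simp
  · intro G hG
    obtain ⟨m₁, h1⟩ := Cyl.restrict_iff hmono hG
    obtain ⟨m₂, h2⟩ := Cyl.restrict_iff hmono hD
    refine tendsto_const_nhds.congr' ?_
    filter_upwards [eventually_ge_atTop (max m₁ m₂)] with m hm
    have hm1 : m₁ ≤ m := (le_max_left _ _).trans hm
    have hm2 : m₂ ≤ m := (le_max_right _ _).trans hm
    have hen : Measurable (e^[n m]) := e.measurable.iterate _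
    have hind := indep_restrict H hK hmono hcov hfin (hK m) (hen (hK m)) (hn m)
    have hset : {ω | cnt (ξ ω) ∈ D ∧ (cnt (ξ ω)).map (e^[n m]) ∈ G} =
        (fun ω => (cnt (ξ ω)).restrict (K m)) ⁻¹' D ∩
        (fun ω => (cnt (ξ ω)).restrict ((e^[n m]) ⁻¹' (K m))) ⁻¹'
          ((fun ν : Measure X => ν.map (e^[n m])) ⁻¹' G) := by
      ext ω
      simp only [Set.mem_inter_iff, Set.mem_preimage]
      rw [h2 m hm2, ← Measure.restrict_map hen (hK m), h1 m hm1]
      rfl
    have hset1 : {ω | cnt (ξ ω) ∈ D} = (fun ω => (cnt (ξ ω)).restrict (K m)) ⁻¹' D := by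
      ext ω
      simp only [Set.mem_preimage]
      rw [h2 m hm2]
      rfl
    have hset2 : {ω | (cnt (ξ ω)).map (e^[n m]) ∈ G} =
        (fun ω => (cnt (ξ ω)).restrict ((e^[n m]) ⁻¹' (K m))) ⁻¹'
          ((fun ν : Measure X => ν.map (e^[n m])) ⁻¹' G) := by
      ext ω
      simp only [Set.mem_preimage]
      rw [← Measure.restrict_map hen (hK m), h1 m hm1]
      rfl
    rw [hset, hind.measure_inter_preimage_eq_mul _ _ hDm
      ((Measure.measurable_map _ hen) (measurableSet_Cyl hG)), ← hset1, ← hset2,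
      hlaw G m (measurableSet_Cyl hG), ENNReal.toReal_mul]
  · intro G hG hT'
    have h1 : ∀ m, (P {ω | cnt (ξ ω) ∈ D ∧ (cnt (ξ ω)).map (e^[n m]) ∈ Gᶜ}).toReal =
        (P {ω | cnt (ξ ω) ∈ D}).toReal -
          (P {ω | cnt (ξ ω) ∈ D ∧ (cnt (ξ ω)).map (e^[n m]) ∈ G}).toReal := by
      intro m
      have h2 : {ω | cnt (ξ ω) ∈ D ∧ (cnt (ξ ω)).map (e^[n m]) ∈ Gᶜ} =
          {ω | cnt (ξ ω) ∈ D} \ {ω | cnt (ξ ω) ∈ D ∧ (cnt (ξ ω)).map (e^[n m]) ∈ G} := by
        ext ω
        simp only [Set.mem_ofPred_eq, Set.mem_compl_iff, Set.mem_sdiff]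
        tauto
      rw [h2]
      exact measureReal_sdiff (fun ω hω => hω.1) (hmeas G m hG)
    have h3 : (P {ω | cnt (ξ ω) ∈ Gᶜ}).toReal = 1 - (P {ω | cnt (ξ ω) ∈ G}).toReal := by
      have := prob_compl_eq_one_sub (μ := P) (hΦ hG)
      have h4 : {ω | cnt (ξ ω) ∈ Gᶜ} = ((fun ω => cnt (ξ ω)) ⁻¹' G)ᶜ := rfl
      rw [h4, this, ENNReal.toReal_sub_of_le prob_le_one ENNReal.one_ne_top]
      rfl
    simp_rw [h1, h3, mul_sub, mul_one]
    exact tendsto_const_nhds.sub hT'
  · intro F hFd hF hT'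
    have h1 : ∀ m, (P {ω | cnt (ξ ω) ∈ D ∧ (cnt (ξ ω)).map (e^[n m]) ∈ ⋃ i, F i}).toReal =
        ∑' i, (P {ω | cnt (ξ ω) ∈ D ∧ (cnt (ξ ω)).map (e^[n m]) ∈ F i}).toReal := by
      intro m
      rw [← ENNReal.tsum_toReal_eq (fun i => measure_ne_top _ _), ← measure_iUnion]
      · congr 2
        ext ω
        simp
      · intro i j hij
        rw [Function.onFun, Set.disjoint_left]
        intro ω h1 h2
        exact (Set.disjoint_left.1 (hFd hij)) h1.2 h2.2
      · intro i; exact hmeas _ m (hF i)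
    have h2 : (P {ω | cnt (ξ ω) ∈ ⋃ i, F i}).toReal = ∑' i, (P {ω | cnt (ξ ω) ∈ F i}).toReal := by
      rw [← ENNReal.tsum_toReal_eq (fun i => measure_ne_top _ _), ← measure_iUnion]
      · congr 2
        ext ω
        simp
      · intro i j hij
        rw [Function.onFun, Set.disjoint_left]
        intro ω h1 h2
        exact (Set.disjoint_left.1 (hFd hij)) h1 h2
      · intro i; exact hΦ (hF i)
    have hsum : Summable (fun i => (P {ω | cnt (ξ ω) ∈ F i}).toReal) := by
      refine ENNReal.summable_toReal ?_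
      rw [← measure_iUnion]
      · exact measure_ne_top _ _
      · intro i j hij
        rw [Function.onFun, Set.disjoint_left]
        intro ω h1 h2
        exact (Set.disjoint_left.1 (hFd hij)) h1 h2
      · intro i; exact hΦ (hF i)
    simp_rw [h1]
    rw [h2, ← tsum_mul_left]
    refine tendsto_tsum_of_dominated_convergence hsum (fun i => hT' i) ?_
    refine Eventually.of_forall fun m i => ?_
    rw [Real.norm_eq_abs, abs_of_nonneg ENNReal.toReal_nonneg, ← hlaw (F i) m (hF i)]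
    exact ENNReal.toReal_mono (measure_ne_top _ _) (measure_mono fun ω hω => hω.2)

/-- Ergodicity: a measurable set of configurations that is a.s. invariant under `e` has
probability `0` or `1`. -/
theorem zero_one (H : IsPoissonSet P ξ μ)
    (hK : ∀ m, MeasurableSet (K m)) (hmono : Monotone K) (hcov : ⋃ m, K m = Set.univ)
    (hfin : ∀ m, μ (K m) < ∞) (e : X ≃ᵐ X) (he : MeasurePreserving e μ μ)
    (haway : ∀ m, ∃ n : ℕ, Disjoint (K m) ((e^[n]) ⁻¹' (K m)))
    {G : Set (Measure X)} (hG : MeasurableSet G)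
    (hinv : ∀ᵐ ω ∂P, cnt (ξ ω) ∈ G ↔ (cnt (ξ ω)).map e ∈ G) :
    (∀ᵐ ω ∂P, cnt (ξ ω) ∈ G) ∨ (∀ᵐ ω ∂P, cnt (ξ ω) ∉ G) := by
  have hΦ := measurable_cnt H
  choose n hn using haway
  have hinvn : ∀ k : ℕ, ∀ᵐ ω ∂P, cnt (ξ ω) ∈ G ↔ (cnt (ξ ω)).map (e^[k]) ∈ G := by
    intro k
    induction k with
    | zero => simp
    | succ k ih =>
      have hmS : MeasurableSet {ν : Measure X | ν ∈ G ↔ ν.map e ∈ G} := by
        have h1 : MeasurableSet ((fun ν : Measure X => ν.map e) ⁻¹' G) :=
          (Measure.measurable_map _ e.measurable) hG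
        have : {ν : Measure X | ν ∈ G ↔ ν.map e ∈ G} =
            (G ∩ ((fun ν : Measure X => ν.map e) ⁻¹' G)) ∪
            (Gᶜ ∩ ((fun ν : Measure X => ν.map e) ⁻¹' G)ᶜ) := by
          ext ν
          simp only [Set.mem_ofPred_eq, Set.mem_union, Set.mem_inter_iff, Set.mem_preimage,
            Set.mem_compl_iff]
          tauto
        rw [this]
        exact (hG.inter h1).union (hG.compl.inter h1.compl)
      have hTk : Measurable (fun ω => (cnt (ξ ω)).map (e^[k])) :=
        (Measure.measurable_map _ (e.measurable.iterate _)).comp hΦ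
      have h2 : ∀ᵐ ν ∂(P.map (fun ω => cnt (ξ ω))), (ν ∈ G ↔ ν.map e ∈ G) := by
        rw [ae_map_iff hΦ.aemeasurable hmS]
        exact hinv
      rw [← law_map_iterate H hK hmono hcov hfin e he k, ae_map_iff hTk.aemeasurable hmS] at h2
      filter_upwards [ih, h2] with ω h3 h4
      rw [h3, h4, Measure.map_map e.measurable (e.measurable.iterate k),
        ← Function.iterate_succ']
  -- the two measures agree on cylinder sets
  have hcyl : ∀ D ∈ Cyl K, P {ω | cnt (ξ ω) ∈ D ∧ cnt (ξ ω) ∈ G} =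
      P {ω | cnt (ξ ω) ∈ G} * P {ω | cnt (ξ ω) ∈ D} := by
    intro D hD
    have h1 := mixing H hK hmono hcov hfin e he n hn hG hD
    have h2 : ∀ m, P {ω | cnt (ξ ω) ∈ D ∧ (cnt (ξ ω)).map (e^[n m]) ∈ G} =
        P {ω | cnt (ξ ω) ∈ D ∧ cnt (ξ ω) ∈ G} := by
      intro m
      refine measure_congr ?_
      filter_upwards [hinvn (n m)] with ω hω
      apply propext
      change (_ ∧ _) ↔ (_ ∧ _)
      rw [hω]
    simp_rw [h2] at h1
    have h3 := tendsto_nhds_unique h1 tendsto_const_nhds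
    rw [← ENNReal.toReal_mul] at h3
    have h4 := (ENNReal.toReal_eq_toReal_iff' (by
      exact ENNReal.mul_ne_top (measure_ne_top _ _) (measure_ne_top _ _))
      (measure_ne_top _ _)).1 h3
    rw [← h4, mul_comm]
  have hmeq : (P.restrict ((fun ω => cnt (ξ ω)) ⁻¹' G)).map (fun ω => cnt (ξ ω)) =
      (P {ω | cnt (ξ ω) ∈ G}) • P.map (fun ω => cnt (ξ ω)) := by
    have : IsFiniteMeasure ((P.restrict ((fun ω => cnt (ξ ω)) ⁻¹' G)).map (fun ω => cnt (ξ ω))) :=
      inferInstance
    refine ext_of_generate_finite _ (generateFrom_Cyl hK hmono hcov) (isPiSystem_Cyl hmono) ?_ ?_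
    · intro D hD
      have hDm := measurableSet_Cyl hD
      rw [Measure.map_apply hΦ hDm, Measure.restrict_apply (hΦ hDm), Measure.smul_apply,
        Measure.map_apply hΦ hDm, smul_eq_mul]
      exact hcyl D hD
    · rw [Measure.map_apply hΦ MeasurableSet.univ, Measure.restrict_apply (hΦ MeasurableSet.univ),
        Measure.smul_apply, Measure.map_apply hΦ MeasurableSet.univ, smul_eq_mul]
      simp
      rfl
  have hsq := congrArg (fun Q => Q G) hmeq
  rw [Measure.map_apply hΦ hG, Measure.restrict_apply (hΦ hG), Set.inter_self,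
    Measure.smul_apply, Measure.map_apply hΦ hG, smul_eq_mul] at hsq
  have hp : P ((fun ω => cnt (ξ ω)) ⁻¹' G) = 0 ∨ P ((fun ω => cnt (ξ ω)) ⁻¹' G) = 1 := by
    by_cases h0 : P ((fun ω => cnt (ξ ω)) ⁻¹' G) = 0
    · exact Or.inl h0
    · right
      have h1 : P ((fun ω => cnt (ξ ω)) ⁻¹' G) * 1 =
          P ((fun ω => cnt (ξ ω)) ⁻¹' G) * P ((fun ω => cnt (ξ ω)) ⁻¹' G) := by
        rw [mul_one]; exact hsq
      exact ((ENNReal.mul_right_inj h0 (measure_ne_top _ _)).1 h1).symm
  rcases hp with h0 | h1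
  · right
    rw [ae_iff]
    refine measure_mono_null ?_ h0
    intro ω hω
    simpa using hω
  · left
    have := (prob_compl_eq_zero_iff (hΦ hG)).2 h1
    rw [ae_iff]
    exact this

end Poisson

end Pool.Agent.Meteor
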